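import Pool.Agent.helper36.V3.SpecW
import Pool.Agent.helper63.PP.FLX

/-!
# Project v3: module FLE (many independent line fields make the error small); extracted from the
proof of `PPS.FLX` (helper63)
-/

set_option autoImplicit false

open Complex Metric Set Filter Topology MeasureTheory MPS MQ Pool.Agent.helper98.ILF

noncomputable section

namespace PPS

theorem FLE_it {f : Polynomial ℂ} {k : ℕ} [NeZero k] {b : ZMod k → ℂ} (hC : IsCyc f b)
    (i : ZMod k) (m : ℕ) : it f m (b i) = b (i + (m : ZMod k)) := by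
  unfold it
  induction m with
  | zero => simp
  | succ m ih =>
    rw [Function.iterate_succ_apply', ih]
    rw [hC.step]
    congr 1
    push_cast
    ring

theorem FLE_der {f : Polynomial ℂ} {k : ℕ} [NeZero k] {b : ZMod k → ℂ} (hC : IsCyc f b)
    (i : ZMod k) (m : ℕ) : DifferentiableAt ℂ (it f m) (b i) ∧
      deriv (it f m) (b i) = ∏ j ∈ Finset.range m, fd f (b (i + (j : ZMod k))) := by
  induction m with
  | zero =>
    have h0 : it f 0 = id := rfl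
    rw [h0]
    exact ⟨differentiableAt_id, by simp⟩
  | succ m ih =>
    have h1 : it f (m + 1) = (fun w : ℂ => f.eval w) ∘ it f m := by
      unfold it
      rw [Function.iterate_succ']
    have h2 : HasDerivAt (fun w : ℂ => f.eval w) (fd f (it f m (b i))) (it f m (b i)) :=
      f.hasDerivAt _
    have h3 := h2.comp (b i) ih.1.hasDerivAt
    rw [h1]
    refine ⟨h3.differentiableAt, ?_⟩
    rw [h3.deriv, ih.2, Finset.prod_range_succ, FLE_it hC, mul_comm]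

theorem FLE_prod {k : ℕ} [NeZero k] (i : ZMod k) (F : ZMod k → ℂ) :
    ∏ j ∈ Finset.range k, F (i + (j : ZMod k)) = ∏ x, F x := by
  rw [← Fin.prod_univ_eq_prod_range (fun j => F (i + (j : ZMod k))) k]
  refine Function.Bijective.prod_comp (e := fun j : Fin k => i + ((j : ℕ) : ZMod k)) ?_ F
  rw [Fintype.bijective_iff_injective_and_card]
  refine ⟨?_, by rw [Fintype.card_fin, ZMod.card]⟩
  intro a c h
  have h1 : ((a : ℕ) : ZMod k) = ((c : ℕ) : ZMod k) := add_left_cancel h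
  rw [ZMod.natCast_eq_natCast_iff', Nat.mod_eq_of_lt a.2, Nat.mod_eq_of_lt c.2] at h1
  exact Fin.ext h1

theorem FLE_mult {f : Polynomial ℂ} {k : ℕ} [NeZero k] {b : ZMod k → ℂ} (hC : IsCyc f b)
    (i : ZMod k) : it f k (b i) = b i ∧ deriv (it f k) (b i) = rho f b := by
  refine ⟨?_, ?_⟩
  · rw [FLE_it hC]
    simp
  · rw [(FLE_der hC i k).2]
    exact FLE_prod i (fun x => fd f (b x))

theorem FLE_core (hPRB : PRB_stmt) (hJBD : JBD_stmt) (hRAD : RAD_stmt)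
    (hCTA : CTA_stmt) (hMAT : MAT_stmt) (hERV : ERV_stmt) (hINQ2 : INQ2_stmt)
    (hROW : ROW_stmt) (hRADX : RADX_stmt) (hKER : KER_stmt)
    (hMI : MPS.MI_stmt) : ∀ (f : Polynomial ℂ), 2 ≤ f.natDegree →
  (∀ v ∈ CV f, v ∈ juliaSet (fun z : ℂ => f.eval z) ∨ Esc f v ∨ ∃ p, APt f p ∧ Att f p v) →
  ∀ μ : Fin (CV f ∩ juliaSet (fun z : ℂ => f.eval z)).ncard → ℂ → ℂ,
  (∀ i, IsInvariantLineField (fun z : ℂ => f.eval z) (μ i)) →
  (∀ l : Fin (CV f ∩ juliaSet (fun z : ℂ => f.eval z)).ncard → ℂ,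
    (∀ᵐ z : ℂ, ∑ i, l i * μ i z = 0) → l = 0) →
  ∃ Cf : ℝ → ℝ, (∀ R, 0 ≤ Cf R) ∧ ∀ (k : ℕ) [NeZero k] (b g : ZMod k → ℂ), 2 ≤ k → IsCyc f b →
    1 < ‖rho f b‖ → Exact f b g →
    ∀ R : ℝ, 0 < R → ∫ z in ball (0 : ℂ) R, ‖er f b g z‖ ≤ Cf R * Real.log ‖rho f b‖ := by
  intro f hn hcv μ hμ hind
  obtain ⟨A, r, F, P, T, s₀, s', μF, βF, μP, βP, hAJ, hRD, hT, hF, hPA, hFA, hRF, hRP⟩ :=
    FLX_data hPRB hJBD hRAD hRADX hROW f hn hcv
  have hLF : ∀ i, LF f A (μ i) := fun i => FL_lf hAJ (hμ i)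
  obtain ⟨ι, hι, m, bb, hPR, hkind, C, hC, hM⟩ := FLX_mat hCTA hMAT hKER hn hRD hT hF hPA hFA hRF
    hRP hLF hind (FLX_card _ T F hT hF)
  refine ⟨fun R => C * (Fintype.card ι * (2 * Real.pi)) * ∑ v ∈ T, ∫ z in ball (0 : ℂ) R, 1 / ‖z - v‖,
    fun R => ?_, ?_⟩
  · have hD0 : 0 ≤ ∑ v ∈ T, ∫ z in ball (0 : ℂ) R, 1 / ‖z - v‖ :=
      Finset.sum_nonneg fun j _ => integral_nonneg fun z => by positivity
    positivity
  intro k _ b g hk2 hC' h1 hg R hR
  have hk0 : 0 < k := by omega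
  have hmul := fun i => FLE_mult hC' i
  have hR0 : (0 : ℝ) ≤ R := hR.le
  obtain ⟨s, hs⟩ := hERV k f b g T hn hC' hg hT
  set D : ℝ := ∑ v ∈ T, ∫ z in ball (0 : ℂ) R, 1 / ‖z - v‖ with hD
  set Lg : ℝ := Real.log ‖rho f b‖ with hLg
  have hLg0 : 0 < Lg := Real.log_pos h1
  have hI : ∀ i, ‖∑ v ∈ T, NLF.CT (fun z => m i z + bb i z) v * s v‖ ≤ 2 * Real.pi * Lg := by
    intro i
    have h2 : ‖∫ z : ℂ, (m i z + bb i z) * er f b g z‖ ≤ 2 * Real.pi * Lg := by
      rcases hkind i with ⟨j, h3, h4⟩ | ⟨x, c₀, c₁, t, hx, h3⟩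
      · rw [h3, h4]
        exact FLX_lfi hINQ2 hn hC' (hLF j) h1 hg
      · exact FLX_row hINQ2 hn hC' hRD hx h3 hk0 hmul h1 hg
    have h3 : ∫ z : ℂ, (m i z + bb i z) * er f b g z =
        ∑ v ∈ T, NLF.CT (fun z => m i z + bb i z) v * s v := by
      have h4 : ∀ᵐ z : ℂ, (m i z + bb i z) * er f b g z =
          ∑ v ∈ T, ((m i z + bb i z) / (z - v)) * s v := by
        filter_upwards [hs] with z hz
        rw [hz, Finset.mul_sum]
        refine Finset.sum_congr rfl fun j _ => ?_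
        ring
      rw [integral_congr_ae h4,
        integral_finsetSum _ (fun v _ => (FLX_int hCTA (hPR i) v).mul_const _)]
      refine Finset.sum_congr rfl fun j _ => ?_
      rw [integral_mul_const]
      rfl
    rw [h3] at h2
    exact h2
  have hsj : ∀ v ∈ T, ‖s v‖ ≤ C * (Fintype.card ι * (2 * Real.pi)) * Lg := by
    intro v hv
    refine (hM s v hv).trans ?_
    have h2 : ∑ i, ‖∑ v ∈ T, NLF.CT (fun z => m i z + bb i z) v * s v‖ ≤
        ∑ _i : ι, 2 * Real.pi * Lg := Finset.sum_le_sum fun i _ => hI i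
    rw [Finset.sum_const, Finset.card_univ, nsmul_eq_mul] at h2
    calc C * ∑ i, ‖∑ v ∈ T, NLF.CT (fun z => m i z + bb i z) v * s v‖
        ≤ C * (Fintype.card ι * (2 * Real.pi * Lg)) := by gcongr
      _ = C * (Fintype.card ι * (2 * Real.pi)) * Lg := by ring
  have h2 : ∀ᵐ z ∂(volume.restrict (ball (0 : ℂ) R)), ‖er f b g z‖ ≤
      ∑ v ∈ T, ‖s v‖ * (1 / ‖z - v‖) := by
    refine ae_restrict_of_ae ?_
    filter_upwards [hs] with z hz
    rw [hz]
    refine (norm_sum_le _ _).trans (Finset.sum_le_sum fun j _ => ?_)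
    rw [norm_div, mul_one_div]
  have hint : ∀ v, Integrable (fun z : ℂ => ‖s v‖ * (1 / ‖z - v‖))
      (volume.restrict (ball (0 : ℂ) R)) := fun v => (FL_int hMI v hR0).const_mul _
  calc ∫ z in ball (0 : ℂ) R, ‖er f b g z‖
      ≤ ∫ z in ball (0 : ℂ) R, ∑ v ∈ T, ‖s v‖ * (1 / ‖z - v‖) :=
        integral_mono_of_nonneg (Eventually.of_forall fun z => norm_nonneg _)
          (integrable_finsetSum _ fun j _ => hint j) h2
    _ = ∑ v ∈ T, ‖s v‖ * ∫ z in ball (0 : ℂ) R, 1 / ‖z - v‖ := by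
        rw [integral_finsetSum _ fun j _ => hint j]
        refine Finset.sum_congr rfl fun j _ => ?_
        rw [integral_const_mul]
    _ ≤ ∑ v ∈ T, (C * (Fintype.card ι * (2 * Real.pi)) * Lg) *
          ∫ z in ball (0 : ℂ) R, 1 / ‖z - v‖ := by
        refine Finset.sum_le_sum fun v hv => ?_
        exact mul_le_mul_of_nonneg_right (hsj v hv) (integral_nonneg fun z => by positivity)
    _ = C * (Fintype.card ι * (2 * Real.pi)) * D * Lg := by rw [← Finset.mul_sum]; ring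

end PPS

namespace V3W

theorem FLE (hPRB : PPS.PRB_stmt) (hJBD : PPS.JBD_stmt) (hRAD : PPS.RAD_stmt)
    (hCTA : PPS.CTA_stmt) (hMAT : PPS.MAT_stmt) (hERV : PPS.ERV_stmt) (hINQ2 : PPS.INQ2_stmt)
    (hROW : PPS.ROW_stmt) (hRADX : PPS.RADX_stmt) (hKER : PPS.KER_stmt)
    (hMI : MPS.MI_stmt) : FLE_stmt :=
  PPS.FLE_core hPRB hJBD hRAD hCTA hMAT hERV hINQ2 hROW hRADX hKER hMI

end V3W
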