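import Pool.Agent.helper54.V3.SpecG

/-!
# Project v3: module GPO: the polynomials `v² B` and the form `v B`
-/

set_option autoImplicit false

open Complex Metric Set Filter Topology MeasureTheory MPS

noncomputable section

namespace V3S

theorem GPO (hGBA : GBA_stmt) : GPO_stmt := by
  intro n ra Cf D hD hlam
  obtain ⟨-, -, -, -, -, -, -, -, ⟨V, hV⟩, hvp, hB, hlam0, hinj, -, -, -⟩ := hGBA n ra Cf D hD
  set κ : ℂ := (Complex.exp D.lam - 1) / D.lam with hκ
  have hκ0 : κ ≠ 0 := div_ne_zero (sub_ne_zero.2 hlam) hlam0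
  have hvf : D.v = fun x => V.eval x := funext hV
  have hV0 : ∀ l, V.eval (D.p l) = 0 := fun l => by rw [← hV, (hvp l).1]
  have hV1 : ∀ l, V.derivative.eval (D.p l) = κ := by
    intro l
    have h := (hvp l).2
    rw [hvf, Polynomial.deriv] at h
    exact h
  have hVne : V ≠ 0 := by
    rintro rfl
    have := hV1 0
    rw [Polynomial.derivative_zero, Polynomial.eval_zero] at this
    exact hκ0 this.symm
  have hW : ∀ l, ∃ W : Polynomial ℂ, V = (Polynomial.X - Polynomial.C (D.p l)) * W := fun l =>
    Polynomial.dvd_iff_isRoot.2 (hV0 l)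
  choose W hW using hW
  have hWκ : ∀ l, (W l).eval (D.p l) = κ := by
    intro l
    have h := hV1 l
    rw [hW l, Polynomial.derivative_mul, Polynomial.eval_add, Polynomial.eval_mul,
      Polynomial.eval_mul] at h
    simpa using h
  have hU : ∀ l, ∃ U : Polynomial ℂ, W l - Polynomial.C κ =
      (Polynomial.X - Polynomial.C (D.p l)) * U := by
    intro l
    refine Polynomial.dvd_iff_isRoot.2 ?_
    rw [Polynomial.IsRoot, Polynomial.eval_sub, Polynomial.eval_C, hWκ, sub_self]
  choose U hU using hU
  have hvx : ∀ l x, D.v x = (x - D.p l) * (W l).eval x := by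
    intro l x
    rw [hV]
    conv_lhs => rw [hW l]
    simp
  have hWx : ∀ l x, (W l).eval x = κ + (x - D.p l) * (U l).eval x := by
    intro l x
    have h := congrArg (fun q : Polynomial ℂ => q.eval x) (hU l)
    simp only [Polynomial.eval_sub, Polynomial.eval_C, Polynomial.eval_mul, Polynomial.eval_X] at h
    linear_combination h
  refine ⟨∑ l, (W l ^ 2 + Polynomial.C (D.sg * D.g l) *
      ((Polynomial.X - Polynomial.C (D.p l)) * W l ^ 2)), V,
    ∑ l, (U l + Polynomial.C (D.sg * D.g l) * W l), hV, hVne, ?_, ?_, ?_⟩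
  · intro x hx
    rw [hB, Finset.mul_sum, Polynomial.eval_finsetSum]
    refine Finset.sum_congr rfl fun l _ => ?_
    have hne : x - D.p l ≠ 0 := sub_ne_zero.2 (hx l)
    rw [hvx l x]
    simp only [Polynomial.eval_add, Polynomial.eval_pow, Polynomial.eval_mul, Polynomial.eval_C,
      Polynomial.eval_sub, Polynomial.eval_X]
    field_simp
  · intro l
    have h1 : 0 < V.rootMultiplicity (D.p l) := (Polynomial.rootMultiplicity_pos hVne).2 (hV0 l)
    have h2 : ¬ 1 < V.rootMultiplicity (D.p l) := by
      intro h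
      have h3 := Polynomial.isRoot_iterate_derivative_of_lt_rootMultiplicity h
      rw [Function.iterate_one, Polynomial.IsRoot, hV1] at h3
      exact hκ0 h3
    omega
  · intro x hx
    rw [hB, Finset.mul_sum, Finset.mul_sum, Polynomial.eval_finsetSum, ← Finset.sum_add_distrib]
    refine Finset.sum_congr rfl fun l _ => ?_
    have hne : x - D.p l ≠ 0 := sub_ne_zero.2 (hx l)
    rw [hvx l x, Polynomial.eval_add, Polynomial.eval_mul, Polynomial.eval_C]
    have h1 : (x - D.p l) * (W l).eval x * (1 / (x - D.p l) ^ 2 + D.sg * D.g l / (x - D.p l)) =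
        (W l).eval x / (x - D.p l) + D.sg * D.g l * (W l).eval x := by
      field_simp
    rw [h1]
    have h2 : (W l).eval x / (x - D.p l) = κ * (1 / (x - D.p l)) + (U l).eval x := by
      rw [hWx l x]
      field_simp
    rw [h2]
    ring

end V3S
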